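import Pool.Agent.J6H19.NX.Det

/-!
# Module GROW, part 3: the growth of the quantiles
-/

set_option autoImplicit false

open MeasureTheory ProbabilityTheory Filter Topology
open scoped ENNReal

namespace Pool.Agent.J6H19.NX

open Pool.Agent.J6H99.NX

variable {e : ℕ} {q : Par} {F : Measure ℝ} [IsProbabilityMeasure F] {ι : Type} [Fintype ι]

/-- the indices of the cells -/
noncomputable def pts (e M : ℕ) : Finset (V e) := Fintype.piFinset fun _ => Finset.Icc (-(M : ℤ)) M

/-- every point is in a cell -/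
lemma cell (M r : ℕ) (hr : 1 ≤ r) (o x : V e) (hx : n1 (x - o) ≤ M * r) :
    ∃ m ∈ pts e M, n1 (x - (o + (r : ℤ) • m)) ≤ (e + 2) * r := by
  have hr' : (0 : ℤ) < r := by exact_mod_cast hr
  refine ⟨fun i => (x - o) i / r, ?_, ?_⟩
  · unfold pts
    rw [Fintype.mem_piFinset]
    intro i
    have h1 := (coord_le_n1 (x - o) i).trans hx
    obtain ⟨h2, h3⟩ := abs_le.1 h1
    rw [Finset.mem_Icc]
    constructor
    · rw [Int.le_ediv_iff_mul_le hr']
      linarith
    · apply Int.ediv_le_of_le_mul hr'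
      linarith
  · unfold n1
    calc ∑ i, |(x - (o + (r : ℤ) • fun i => (x - o) i / r)) i| ≤ ∑ _i : Fin (e + 2), (r : ℤ) := by
          refine Finset.sum_le_sum fun i _ => ?_
          have h1 := Int.emod_nonneg ((x - o) i) hr'.ne'
          have h2 := Int.emod_lt_of_pos ((x - o) i) hr'
          rw [Int.emod_def] at h1 h2
          have h3 : (x - (o + (r : ℤ) • fun i => (x - o) i / r)) i =
              (x - o) i - r * ((x - o) i / r) := by
            simp only [Pi.sub_apply, Pi.add_apply, Pi.smul_apply, smul_eq_mul]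
            ring
          rw [h3, abs_of_nonneg h1]
          exact h2.le
      _ = _ := by simp

lemma support_in {R : Set (V e)} {x y : V e} (p : (lat e).Walk x y) (hp : Uses p (EIn R))
    (h0 : x ∈ R) : ∀ v ∈ p.support, v ∈ R := by
  induction p with
  | nil =>
    intro v hv
    simp only [SimpleGraph.Walk.support_nil, List.mem_singleton] at hv
    rw [hv]; exact h0
  | @cons x y z h p ih =>
    have h1 : s(x, y) ∈ EIn R := hp _ (by simp)
    have hy : y ∈ R := h1 y (by simp)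
    intro v hv
    rw [SimpleGraph.Walk.support_cons, List.mem_cons] at hv
    rcases hv with rfl | hv
    · exact h0
    · exact ih (fun t ht => hp t (by
        rw [SimpleGraph.Walk.edges_cons]; exact List.mem_cons_of_mem _ ht)) hy v hv

lemma SSg_meas (D : Cor e q F ι) (i : ι) (l w s : ℝ) : MeasurableSet (SSg D i l w s) :=
  MeasurableSet.iUnion fun _ => Ev_meas q _ _ _ _

lemma near_level {D : Cor e q F ι} {H : ℝ} (hH : Hyp D H) {A w : ℝ} {z : V e}
    (h1 : A ≤ lf D.chi z) (h2 : lf D.chi z ≤ A + nr D.chi)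
    (h3 : ∀ i, lf (D.f i) z - lf D.chi z ≤ w) (hw : 0 ≤ w) :
    (n1 (z - rnd (A • D.v)) : ℝ) ≤ H * w + H ^ 2 + H := by
  have e1 : vc (z - rnd (A • D.v)) = (vc z - dt D.chi (vc z) • D.v) +
      ((lf D.chi z - A) • D.v + (A • D.v - vc (rnd (A • D.v)))) := by
    rw [vc_sub, sub_smul]; unfold lf; abel
  rw [← nr_vc, e1]
  have a1 := nr_add_le (vc z - dt D.chi (vc z) • D.v)
      ((lf D.chi z - A) • D.v + (A • D.v - vc (rnd (A • D.v))))
  have a2 := nr_add_le ((lf D.chi z - A) • D.v) (A • D.v - vc (rnd (A • D.v)))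
  rw [nr_smul, nr_sub_comm (A • D.v)] at a2
  have a3 := nr_rnd_sub (A • D.v)
  have a4 := hH.e2
  have a5 := D.near_line (y := vc z) (w := w) h3
  have a6 : w / D.c0 ≤ H * w := by
    rw [div_eq_inv_mul]
    exact mul_le_mul_of_nonneg_right hH.c hw
  have a7 : |lf D.chi z - A| * nr D.v ≤ H * H :=
    mul_le_mul (abs_le.2 ⟨by linarith [hH.pos], by linarith [hH.chi]⟩) hH.v (nr_nonneg _)
      hH.pos.le
  nlinarith

section prob

variable (D : Cor e q F ι)

/-- the centre of a cell -/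
noncomputable def cen (lp : ℝ) (r : ℕ) (j : ℕ) (m : V e) : V e :=
  rnd (((j : ℝ) * lp) • D.v) + (r : ℤ) • m

open Classical in
/-- the search events at the cell centres -/
noncomputable def BS (lp : ℝ) (r N M : ℕ) (l W P : ℝ) : Set (Om e) :=
  ⋃ a ∈ Finset.range (N + 1) ×ˢ (pts e M ×ˢ (Finset.univ : Finset ι)),
    (act (tr (cen D lp r a.1 a.2.1)) ⁻¹' SSg D a.2.2 l W P) ∪
      (act (refl (cen D lp r a.1 a.2.1)) ⁻¹' SSg D a.2.2 l W P)

/-- two good blocks -/
noncomputable def DB (lp : ℝ) (r N M : ℕ) (l k H P : ℝ) : Set (Om e) :=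
  ⋃ a ∈ ((Finset.range N ×ˢ Finset.range N).filter fun b => b.1 < b.2) ×ˢ
      (pts e M ×ˢ pts e M),
    Gd D l k (40 * (H * P)) (50 * (H ^ 2 * P)) P (a.1.1 * lp) (a.1.1 * lp + lp)
        (cen D lp r a.1.1 a.2.1) ∩
      Gd D l k (40 * (H * P)) (50 * (H ^ 2 * P)) P (a.1.2 * lp) (a.1.2 * lp + lp)
        (cen D lp r a.1.2 a.2.2)

open Classical in
/-- expensive shortest paths near the cell centres -/
noncomputable def FS (lp : ℝ) (r N M k : ℕ) (P : ℝ) : Set (Om e) :=
  ⋃ a ∈ Finset.range (N + 1) ×ˢ pts e M, (Fine q P k (cen D lp r a.1 a.2))ᶜ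

lemma prob_FS (lp : ℝ) (r N M k : ℕ) (P : ℝ) {p : ℝ≥0∞}
    (h : ∀ c : V e, PM e F (Fine q P k c)ᶜ ≤ p) :
    PM e F (FS D lp r N M k P) ≤ (((N + 1) * (pts e M).card : ℕ) : ℝ≥0∞) * p := by
  classical
  unfold FS
  refine (measure_biUnion_finset_le _ _).trans ?_
  refine (Finset.sum_le_sum fun a _ => h _).trans ?_
  rw [Finset.sum_const, nsmul_eq_mul, Finset.card_product, Finset.card_range]

lemma prob_BS (lp : ℝ) (r N M : ℕ) (l W P η : ℝ)
    (h : ∀ i, PM e F (SSg D i l W P) ≤ ENNReal.ofReal η) :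
    PM e F (BS D lp r N M l W P) ≤
      (((N + 1) * ((pts e M).card * Fintype.card ι) : ℕ) : ℝ≥0∞) *
        (ENNReal.ofReal η + ENNReal.ofReal η) := by
  classical
  unfold BS
  refine (measure_biUnion_finset_le _ _).trans ?_
  have h1 : ∀ a ∈ Finset.range (N + 1) ×ˢ (pts e M ×ˢ (Finset.univ : Finset ι)),
      PM e F ((act (tr (cen D lp r a.1 a.2.1)) ⁻¹' SSg D a.2.2 l W P) ∪
        (act (refl (cen D lp r a.1 a.2.1)) ⁻¹' SSg D a.2.2 l W P)) ≤
      ENNReal.ofReal η + ENNReal.ofReal η := by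
    intro a _
    refine (measure_union_le _ _).trans (add_le_add ?_ ?_)
    · rw [(act_mp F _).measure_preimage (SSg_meas D _ _ _ _).nullMeasurableSet]
      exact h _
    · rw [(act_mp F _).measure_preimage (SSg_meas D _ _ _ _).nullMeasurableSet]
      exact h _
  refine (Finset.sum_le_sum h1).trans ?_
  rw [Finset.sum_const, nsmul_eq_mul, Finset.card_product, Finset.card_product,
    Finset.card_range, Finset.card_univ]

lemma prob_DB (lp : ℝ) (hlp : 0 ≤ lp) (r N M : ℕ) (l k H P : ℝ) (hS : Scl D H k P)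
    (hl : 0 ≤ l) {p1 p2 p : ℝ≥0∞} (h : PM e F (K D l (k - 1)) ≤ p1) {m : ℕ} (hm : k ≤ m)
    (hFi : ∀ c : V e, PM e F (Fine q P m c)ᶜ ≤ p2) (hp : p1 + (p2 + p2) ≤ p) :
    PM e F (DB D lp r N M l k H P) ≤
      (((N * N) * ((pts e M).card * (pts e M).card) : ℕ) : ℝ≥0∞) * (p * p) := by
  classical
  unfold DB
  refine (measure_biUnion_finset_le _ _).trans ?_
  have hG : ∀ (A B : ℝ) (c : V e),
      PM e F (Gd D l k (40 * (H * P)) (50 * (H ^ 2 * P)) P A B c) ≤ p := by
    intro A B c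
    refine le_trans ?_ hp
    have hsub : Gd D l k (40 * (H * P)) (50 * (H ^ 2 * P)) P A B c ⊆
        (act (tr c) ⁻¹' K D l (k - 1)) ∪ ((Fine q P m c)ᶜ ∪
          (Fine q P m (c + rnd (l • D.v)))ᶜ) := by
      intro ω hω
      by_cases h1 : ω ∈ Fine q P m c
      · by_cases h2 : ω ∈ Fine q P m (c + rnd (l • D.v))
        · exact Or.inl (Gd_sub hS hl c hm h1 h2 hω)
        · exact Or.inr (Or.inr h2)
      · exact Or.inr (Or.inl h1)
    refine (measure_mono hsub).trans ((measure_union_le _ _).trans ?_)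
    refine add_le_add ?_ ((measure_union_le _ _).trans (add_le_add (hFi _) (hFi _)))
    rw [(act_mp F (tr c)).measure_preimage (K_meas D l (k - 1)).nullMeasurableSet]
    exact h
  have h1 : ∀ a ∈ ((Finset.range N ×ˢ Finset.range N).filter fun b => b.1 < b.2) ×ˢ
      (pts e M ×ˢ pts e M), PM e F
      (Gd D l k (40 * (H * P)) (50 * (H ^ 2 * P)) P (a.1.1 * lp) (a.1.1 * lp + lp)
        (cen D lp r a.1.1 a.2.1) ∩
      Gd D l k (40 * (H * P)) (50 * (H ^ 2 * P)) P (a.1.2 * lp) (a.1.2 * lp + lp)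
        (cen D lp r a.1.2 a.2.2)) ≤ p * p := by
    intro a ha
    rw [Finset.mem_product, Finset.mem_filter] at ha
    have hlt : a.1.1 < a.1.2 := ha.1.2
    have hle : ((a.1.1 : ℕ) : ℝ) * lp + lp ≤ (a.1.2 : ℕ) * lp := by
      have h2 : ((a.1.1 : ℕ) : ℝ) + 1 ≤ ((a.1.2 : ℕ) : ℝ) := by exact_mod_cast hlt
      nlinarith
    have hind := indep_MS F (Slab_disjoint D.chi (((a.1.1 : ℕ) : ℝ) * lp) (B := (a.1.1 : ℕ) * lp + lp)
      (B' := (a.1.2 : ℕ) * lp) (C := (a.1.2 : ℕ) * lp + lp) hle)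
    rw [(Indep_iff _ _ _).1 hind _ _ (Gd_meas D _ _ _ _ _ _ _ _) (Gd_meas D _ _ _ _ _ _ _ _)]
    exact mul_le_mul' (hG _ _ _) (hG _ _ _)
  refine (Finset.sum_le_sum h1).trans ?_
  rw [Finset.sum_const, nsmul_eq_mul, Finset.card_product, Finset.card_product]
  refine mul_le_mul_left ?_ _
  have h2 : ((Finset.range N ×ˢ Finset.range N).filter fun b => b.1 < b.2).card ≤ N * N := by
    refine (Finset.card_filter_le _ _).trans ?_
    rw [Finset.card_product, Finset.card_range]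
  exact_mod_cast Nat.mul_le_mul_right _ h2

end prob

/-- the deterministic part -/
theorem det {D : Cor e q F ι} {H k P : ℝ} (hS : Scl D H k P) {mk : ℕ} (hmk : k ≤ mk)
    (N l r M w : ℕ) (W lp : ℝ)
    (hN : 2 ≤ N) (hr : 1 ≤ r) (hrP : ((e : ℝ) + 2) * r ≤ P) (hM : H * w + H ^ 2 + H ≤ M * r)
    (hlp0 : 0 ≤ lp) (hlp1 : lp ≤ l) (hlp2 : l - P ≤ lp)
    (hlpN : (N : ℝ) * lp = N * l - nr D.chi * ((e : ℝ) + 2))
    (hW : (w : ℝ) + Fintype.card ι * w + k ≤ W) (hwk : (w : ℝ) < 10 * (H * P) * N) :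
    K D ((N * l : ℕ) : ℝ) (w : ℝ) ⊆
      BS D lp r N M l W P ∪ (FS D lp r N M mk P ∪ DB D lp r N M l k H P) := by
  classical
  intro ω hω
  by_contra hcon
  rw [Set.mem_union, not_or, Set.mem_union, not_or] at hcon
  obtain ⟨hBS, hFS, hDB⟩ := hcon
  have hH := hS.hyp
  have hw0 : (0 : ℝ) ≤ w := Nat.cast_nonneg w
  obtain ⟨p, hp, hcost⟩ := hω
  set R : Set (V e) := Tube D ((N * l : ℕ) : ℝ) (w : ℝ) with hR
  have h0R : (0 : V e) ∈ R := by
    refine ⟨?_, ?_, fun i => ?_⟩
    · rw [lf_zero]; linarith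
    · rw [lf_zero]
      have : (0 : ℝ) ≤ ((N * l : ℕ) : ℝ) := Nat.cast_nonneg _
      linarith
    · rw [lf_zero, lf_zero]; linarith
  have hsup := support_in p hp h0R
  have hRlat : ∀ v ∈ R, ∀ i, lf (D.f i) v - lf D.chi v ≤ (w : ℝ) := fun v hv i => hv.2.2 i
  -- no search events
  have hno : ∀ j ≤ N, ∀ m ∈ pts e M, ∀ i : ι, act (tr (cen D lp r j m)) ω ∉ SSg D i l W P ∧
      act (refl (cen D lp r j m)) ω ∉ SSg D i l W P := by
    intro j hj m hm i
    unfold BS at hBS
    simp only [Set.mem_iUnion, not_exists, Set.mem_union, Set.mem_preimage, not_or] at hBS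
    exact hBS (j, m, i) (by
      rw [Finset.mem_product, Finset.mem_product, Finset.mem_range]
      exact ⟨by omega, hm, Finset.mem_univ _⟩)
  have hfine : ∀ j ≤ N, ∀ m ∈ pts e M, ω ∈ Fine q P mk (cen D lp r j m) := by
    intro j hj m hm
    unfold FS at hFS
    simp only [Set.mem_iUnion, not_exists, Set.mem_compl_iff, not_not] at hFS
    exact hFS (j, m) (by
      rw [Finset.mem_product, Finset.mem_range]
      exact ⟨by omega, hm⟩)
  -- cut the walk
  have hmono : ∀ j : ℕ, (j : ℝ) * lp ≤ ((j + 1 : ℕ) : ℝ) * lp := by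
    intro j; push_cast; linarith
  obtain ⟨t, ht1, ht2⟩ := blocks q ω (lf D.chi) (nr D.chi) (fun j => (j : ℝ) * lp)
    (step_chi D) hmono R N 0 p hsup (by
      rw [lf_zero]; push_cast; linarith [nr_nonneg D.chi]) (by
      have h1 := abs_le.1 (abs_lf_rnd_sub D.chi (((N * l : ℕ) : ℝ) • D.v))
      rw [dt_smul, D.chi_v] at h1
      push_cast at h1 ⊢
      rw [zero_add]
      linarith)
  simp only [zero_add] at ht1 ht2
  -- every crossing
  have key : ∀ j < N, l - 5 * (H * P) ≤ t j ∧ (t j ≤ l + 40 * (H * P) → ∃ m ∈ pts e M,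
      ω ∈ Gd D l k (40 * (H * P)) (50 * (H ^ 2 * P)) P (j * lp) (j * lp + lp)
        (cen D lp r j m)) := by
    intro j hj
    obtain ⟨x, y, p', hcr, hc⟩ := ht2 j hj
    have hB : (((j + 1 : ℕ) : ℝ)) * lp = (j : ℝ) * lp + lp := by push_cast; ring
    rw [hB] at hcr
    have hxs : x ∈ p'.support := SimpleGraph.Walk.start_mem_support _
    have hys : y ∈ p'.support := SimpleGraph.Walk.end_mem_support _
    have hnx := near_level hH (hcr.lo x hxs) hcr.hx (hRlat x (hcr.reg x hxs)) hw0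
    have hny := near_level hH (A := (j : ℝ) * lp + lp) hcr.hy (hcr.up y hys)
      (hRlat y (hcr.reg y hys)) hw0
    obtain ⟨m, hm, hmx⟩ := cell M r hr (rnd (((j : ℝ) * lp) • D.v)) x (by
      have := hnx.trans hM
      exact_mod_cast this)
    obtain ⟨m', hm', hmy⟩ := cell M r hr (rnd (((j : ℝ) * lp + lp) • D.v)) y (by
      have := hny.trans hM
      exact_mod_cast this)
    have hcx : (n1 (x - cen D lp r j m) : ℝ) ≤ P := by
      refine le_trans ?_ hrP
      unfold cen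
      exact_mod_cast hmx
    have hcy : (n1 (y - cen D lp r (j + 1) m') : ℝ) ≤ P := by
      refine le_trans ?_ hrP
      unfold cen
      rw [hB]
      exact_mod_cast hmy
    have hcr' := crossing hS hlp0 hlp1 hlp2 hW hRlat p' hcr (cen D lp r j m)
      (cen D lp r (j + 1) m') hcx hcy (fun i => (hno j hj.le m hm i).1)
      (fun i => (hno (j + 1) (by omega) m' hm' i).2) hmk (hfine j hj.le m hm)
      (hfine (j + 1) (by omega) m' hm')
    exact ⟨hcr'.1.trans hc, fun h => ⟨m, hm, hcr'.2 (hc.trans h)⟩⟩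
  -- at most one good block
  have huniq : ∀ j < N, ∀ j' < N, j < j' → t j ≤ l + 40 * (H * P) →
      ¬ t j' ≤ l + 40 * (H * P) := by
    intro j hj j' hj' hlt h1 h2
    obtain ⟨m, hm, hg⟩ := (key j hj).2 h1
    obtain ⟨m', hm', hg'⟩ := (key j' hj').2 h2
    apply hDB
    unfold DB
    refine Set.mem_iUnion₂.2 ⟨((j, j'), (m, m')), ?_, hg, hg'⟩
    rw [Finset.mem_product, Finset.mem_filter, Finset.mem_product, Finset.mem_range,
      Finset.mem_range, Finset.mem_product]
    exact ⟨⟨⟨hj, hj'⟩, hlt⟩, hm, hm'⟩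
  have hHP : 0 ≤ H * P := mul_nonneg hH.pos.le (by linarith [hS.P0])
  have hN' : (2 : ℝ) ≤ N := by exact_mod_cast hN
  have hsum : (N : ℝ) * l + 40 * (N - 1) * (H * P) - 5 * (H * P) ≤
      ∑ j ∈ Finset.range N, t j := by
    by_cases hex : ∃ j0 < N, t j0 ≤ l + 40 * (H * P)
    · obtain ⟨j0, hj0, hg⟩ := hex
      rw [← Finset.add_sum_erase _ _ (Finset.mem_range.2 hj0)]
      have h1 : ∑ _j ∈ (Finset.range N).erase j0, ((l : ℝ) + 40 * (H * P)) ≤
          ∑ j ∈ (Finset.range N).erase j0, t j := by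
        refine Finset.sum_le_sum fun j hj => ?_
        rw [Finset.mem_erase, Finset.mem_range] at hj
        by_contra hlt
        push Not at hlt
        rcases lt_or_gt_of_ne hj.1 with h2 | h2
        · exact huniq j hj.2 j0 hj0 h2 hlt.le hg
        · exact huniq j0 hj0 j hj.2 h2 hg hlt.le
      rw [Finset.sum_const, Finset.card_erase_of_mem (Finset.mem_range.2 hj0),
        Finset.card_range, nsmul_eq_mul, Nat.cast_sub (by omega)] at h1
      have h2 := (key j0 hj0).1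
      push_cast at h1
      linarith
    · push Not at hex
      have h1 : ∑ _j ∈ Finset.range N, ((l : ℝ) + 40 * (H * P)) ≤
          ∑ j ∈ Finset.range N, t j := by
        refine Finset.sum_le_sum fun j hj => ?_
        exact (hex j (Finset.mem_range.1 hj)).le
      rw [Finset.sum_const, Finset.card_range, nsmul_eq_mul] at h1
      linarith
  push_cast at hcost
  have h9 := mul_le_mul_of_nonneg_right hN' hHP
  linarith

/-- **Module GROW.** -/
theorem grow : GrowT := by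
  classical
  intro e q F _ _ ι _ D hSS
  obtain ⟨H, hH⟩ := exists_Hyp D
  have hH1 := hH.one
  have hHpos := hH.pos
  have hH2 : 1 ≤ H ^ 2 := one_le_pow₀ hH1
  have hH3 : 1 ≤ H ^ 3 := one_le_pow₀ hH1
  have hH23 : H ^ 2 ≤ H ^ 3 := pow_le_pow_right₀ hH1 (by norm_num)
  have hH12 : H ≤ H ^ 2 := le_self_pow₀ hH1 (by norm_num)
  set σ : ℝ := 1 / (320 * H ^ 3) with hσ
  have hσ0 : 0 < σ := by positivity
  have hσ1 : 320 * (H ^ 3 * σ) = 1 := by rw [hσ]; field_simp
  have hκ : 10 * (H * σ) ≤ 1 := by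
    have : H * σ ≤ H ^ 3 * σ := by
      refine mul_le_mul_of_nonneg_right ?_ hσ0.le
      linarith
    linarith
  refine ⟨10 * (H * σ), by positivity, fun N hN => ?_⟩
  rcases Nat.lt_or_ge N 2 with hN2 | hN2
  · have hN1 : N = 1 := by omega
    subst hN1
    refine ⟨1, one_pos, fun ε _ _ => ⟨0, fun l _ => ?_⟩⟩
    rw [Nat.one_mul, Nat.cast_one, mul_one]
    have : (0 : ℝ) ≤ kk D ε l := Nat.cast_nonneg _
    exact mul_le_of_le_one_left this hκ
  -- the number of cells
  have hNr : (2 : ℝ) ≤ N := by exact_mod_cast hN2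
  obtain ⟨M, hM⟩ := exists_nat_ge ((H * N + 2) * (2 * ((e : ℝ) + 2) / σ))
  set nw : ℕ := (pts e M).card with hnw
  set εN : ℝ := 1 / (16 * ((N : ℝ) * N * (nw * nw)) + 4) with hεN
  have hεN0 : 0 < εN := by positivity
  refine ⟨εN, hεN0, fun ε hε0 hε => ?_⟩
  have hεN1 : εN < 1 := by
    rw [hεN, div_lt_one (by positivity)]
    have : 0 ≤ 16 * ((N : ℝ) * N * (nw * nw)) := by positivity
    linarith
  have hε1 : ε < 1 := hε.trans_lt hεN1
  obtain ⟨C4, hC4, hFine⟩ := prob_Fine (e := e) q F hσ0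
  set nf : ℕ := (N + 1) * nw with hnf
  obtain ⟨C5, hC5⟩ := exists_nat_ge (C4 * (4 * ((nf : ℝ) + 1)) / ε)
  set nb : ℕ := (N + 1) * (nw * Fintype.card ι) with hnb
  set η : ℝ := ε / (8 * ((nb : ℝ) + 1)) with hη
  have hη0 : 0 < η := by positivity
  set W0 : ℝ := N * (1 + Fintype.card ι) + 1 with hW0
  have hW0' : 0 < W0 := by positivity
  choose Cf hCf using fun i : ι => hSS ε hε0 hε1 i W0 σ η hW0' hσ0 hη0
  obtain ⟨L1, hL1⟩ := exists_nat_ge (H ^ 2)
  obtain ⟨C3, hC3⟩ := exists_nat_ge (H ^ 3 / σ)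
  refine ⟨(∑ i, Cf i) + (∑ l ∈ Finset.range L1, kk D ε l) + 1 + C3 + C5, fun l hl => ?_⟩
  by_contra hcon
  push Not at hcon
  set k : ℕ := kk D ε l with hk
  set w : ℕ := kk D ε (N * l) with hw
  -- consequences of the size of `k`
  have hk1 : ∀ i, Cf i ≤ k := by
    intro i
    have h1 : Cf i ≤ ∑ j, Cf j := Finset.single_le_sum (fun j _ => Nat.zero_le _)
      (Finset.mem_univ i)
    omega
  have hlL : L1 ≤ l := by
    by_contra hlt
    push Not at hlt
    have h1 : kk D ε l ≤ ∑ l ∈ Finset.range L1, kk D ε l :=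
      Finset.single_le_sum (f := fun l => kk D ε l) (fun j _ => Nat.zero_le _)
        (Finset.mem_range.2 hlt)
    omega
  have hlr : H ^ 2 ≤ l := hL1.trans (by exact_mod_cast hlL)
  have hl0 : (0 : ℝ) ≤ l := Nat.cast_nonneg l
  have hk0 : (1 : ℝ) ≤ k := by
    have : 1 ≤ k := by omega
    exact_mod_cast this
  have hkC : H ^ 3 ≤ σ * k := by
    have h1 : (C3 : ℝ) ≤ k := by
      have : C3 ≤ k := by omega
      exact_mod_cast this
    have h2 := hC3.trans h1
    rwa [div_le_iff₀ hσ0, mul_comm] at h2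
  set P : ℝ := σ * k with hP
  have hP0 : 0 < P := by positivity
  have hS : Scl D H k P := by
    refine ⟨hH, ?_, ?_⟩
    · rw [hP]
      calc 320 * (H ^ 3 * (σ * (k : ℝ))) = (320 * (H ^ 3 * σ)) * (k : ℝ) := by ring
        _ = (k : ℝ) := by rw [hσ1, one_mul]
    · exact hH23.trans hkC
  -- the cell size
  have he2 : (0 : ℝ) < (e : ℝ) + 2 := by positivity
  have hPe : 1 ≤ P / ((e : ℝ) + 2) := by
    rw [le_div_iff₀ he2, one_mul]
    exact hH.e2.trans ((hH12.trans hH23).trans hkC)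
  set r : ℕ := ⌊P / ((e : ℝ) + 2)⌋₊ with hr
  have hr1 : (r : ℝ) ≤ P / ((e : ℝ) + 2) := Nat.floor_le (by positivity)
  have hr2 : P / ((e : ℝ) + 2) < r + 1 := Nat.lt_floor_add_one _
  have hr3 : 1 ≤ r := by
    rw [hr]
    exact Nat.le_floor (by exact_mod_cast hPe)
  have hr3' : (1 : ℝ) ≤ r := by exact_mod_cast hr3
  have hr4 : ((e : ℝ) + 2) * r ≤ P := by
    rw [le_div_iff₀ he2] at hr1; linarith
  have hr5 : P ≤ 2 * ((e : ℝ) + 2) * r := by
    rw [div_lt_iff₀ he2] at hr2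
    have h9 := mul_le_mul_of_nonneg_right hr3' he2.le
    linarith
  -- the width
  have hwk : (w : ℝ) < 10 * (H * P) * N := by
    calc (w : ℝ) < 10 * (H * σ) * N * k := hcon
      _ = 10 * (H * P) * N := by rw [hP]; ring
  have hwN : (w : ℝ) ≤ N * k := by
    refine hcon.le.trans ?_
    have h1 : 10 * (H * σ) * (N * k) ≤ 1 * (N * k) :=
      mul_le_mul_of_nonneg_right hκ (by positivity)
    linarith
  have hMr : H * w + H ^ 2 + H ≤ M * r := by
    have h1 : (H * N + 2) * k ≤ M * r := by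
      have h2 : (H * N + 2) * k ≤ (H * N + 2) * (2 * ((e : ℝ) + 2) / σ) * r := by
        have h3 : (k : ℝ) ≤ (2 * ((e : ℝ) + 2) / σ) * r := by
          rw [div_mul_eq_mul_div, le_div_iff₀ hσ0, mul_comm]
          exact hr5
        calc (H * N + 2) * (k : ℝ) ≤ (H * N + 2) * ((2 * ((e : ℝ) + 2) / σ) * r) :=
              mul_le_mul_of_nonneg_left h3 (by positivity)
          _ = _ := by ring
      exact h2.trans (mul_le_mul_of_nonneg_right hM (by positivity))
    refine le_trans ?_ h1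
    have h2 : H * w ≤ H * (N * k) := mul_le_mul_of_nonneg_left hwN hHpos.le
    have h3 : H ^ 2 ≤ k := by
      refine hS.big.trans ?_
      have := hS.P3
      have := hS.P23
      have := hS.P2
      have := hS.P1
      linarith
    linarith
  -- the level distance
  set lp : ℝ := l - nr D.chi * ((e : ℝ) + 2) / N with hlp
  have hN0 : (0 : ℝ) < N := by linarith
  have hC1 : nr D.chi * ((e : ℝ) + 2) ≤ H ^ 2 := by
    calc nr D.chi * ((e : ℝ) + 2) ≤ H * H := mul_le_mul hH.chi hH.e2 he2.le hHpos.le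
      _ = H ^ 2 := by ring
  have hC0 : 0 ≤ nr D.chi * ((e : ℝ) + 2) := mul_nonneg (nr_nonneg _) he2.le
  have hCN : nr D.chi * ((e : ℝ) + 2) / N ≤ H ^ 2 := by
    rw [div_le_iff₀ hN0]
    have h9 := mul_le_mul_of_nonneg_left (by linarith : (1 : ℝ) ≤ N)
      (by positivity : (0 : ℝ) ≤ H ^ 2)
    linarith
  have hCN0 : 0 ≤ nr D.chi * ((e : ℝ) + 2) / N := div_nonneg hC0 hN0.le
  have hlp0 : 0 ≤ lp := by rw [hlp]; linarith
  have hlp1 : lp ≤ l := by rw [hlp]; linarith
  have hlp2 : (l : ℝ) - P ≤ lp := by rw [hlp]; linarith [hS.big]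
  have hlpN : (N : ℝ) * lp = N * l - nr D.chi * ((e : ℝ) + 2) := by
    rw [hlp, mul_sub, mul_div_cancel₀ _ hN0.ne']
  have hW : (w : ℝ) + Fintype.card ι * w + k ≤ W0 * k := by
    have h1 : (0 : ℝ) ≤ Fintype.card ι := Nat.cast_nonneg _
    rw [hW0]
    have h9 := mul_le_mul_of_nonneg_right hwN (by linarith : (0 : ℝ) ≤ 1 + Fintype.card ι)
    linarith
  have hCk : C4 / k ≤ ε / (4 * ((nf : ℝ) + 1)) := by
    have h1 : (C5 : ℝ) ≤ k := by
      have : C5 ≤ k := by omega
      exact_mod_cast this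
    have h2 := hC5.trans h1
    rw [div_le_iff₀ hε0] at h2
    rw [div_le_div_iff₀ (by linarith) (by positivity)]
    linarith
  have hFk : ∀ c : V e, PM e F (Fine q P k c)ᶜ ≤ ENNReal.ofReal (ε / (4 * ((nf : ℝ) + 1))) := by
    intro c
    have h1 : 1 ≤ k := by omega
    exact (hFine k c h1).trans (ENNReal.ofReal_le_ofReal hCk)
  have hsub := det hS (mk := k) le_rfl N l r M w (W0 * k) lp hN2 hr3 hr4 hMr hlp0 hlp1 hlp2 hlpN hW hwk
  -- probabilities
  have hp1 := kk_spec D hε1 (N * l)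
  have hp2 : PM e F (BS D lp r N M l (W0 * k) P) ≤ ENNReal.ofReal (ε / 4) := by
    refine (prob_BS D lp r N M l (W0 * k) P η fun i => hCf i l (hk1 i)).trans ?_
    rw [← ENNReal.ofReal_add hη0.le hη0.le, ← ENNReal.ofReal_natCast,
      ← ENNReal.ofReal_mul (Nat.cast_nonneg _)]
    refine ENNReal.ofReal_le_ofReal ?_
    rw [← hnw, ← hnb]
    have h1 : (nb : ℝ) * (η + η) = ε / 4 * (nb / ((nb : ℝ) + 1)) := by
      rw [hη]; field_simp; ring
    rw [h1]
    have h2 : (nb : ℝ) / ((nb : ℝ) + 1) ≤ 1 := by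
      rw [div_le_one (by positivity)]; linarith
    have h3 : 0 ≤ ε / 4 := by linarith
    exact mul_le_of_le_one_right h3 h2
  have hp5 : PM e F (FS D lp r N M k P) ≤ ENNReal.ofReal (ε / 4) := by
    refine (prob_FS D lp r N M k P hFk).trans ?_
    rw [← ENNReal.ofReal_natCast, ← ENNReal.ofReal_mul (Nat.cast_nonneg _)]
    refine ENNReal.ofReal_le_ofReal ?_
    rw [← hnw, ← hnf]
    have h1 : (nf : ℝ) * (ε / (4 * ((nf : ℝ) + 1))) = ε / 4 * (nf / ((nf : ℝ) + 1)) := by
      field_simp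
    rw [h1]
    have h2 : (nf : ℝ) / ((nf : ℝ) + 1) ≤ 1 := by
      rw [div_le_one (by positivity)]; linarith
    have h3 : 0 ≤ ε / 4 := by linarith
    exact mul_le_of_le_one_right h3 h2
  have hp3 : PM e F (DB D lp r N M l k H P) ≤ ENNReal.ofReal (ε / 4) := by
    have h1 : PM e F (K D l ((k : ℝ) - 1)) ≤ ENNReal.ofReal ε := by
      have h2 : k - 1 < kk D ε l := by
        have : 1 ≤ k := by omega
        omega
      have h3 := lt_kk D h2
      rw [Nat.cast_sub (by omega : 1 ≤ k), Nat.cast_one] at h3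
      exact h3.le
    have h0 : ENNReal.ofReal ε + (ENNReal.ofReal (ε / (4 * ((nf : ℝ) + 1))) +
        ENNReal.ofReal (ε / (4 * ((nf : ℝ) + 1)))) ≤ ENNReal.ofReal (2 * ε) := by
      have h5 : 0 ≤ ε / (4 * ((nf : ℝ) + 1)) := by positivity
      rw [← ENNReal.ofReal_add h5 h5, ← ENNReal.ofReal_add hε0.le (by linarith)]
      refine ENNReal.ofReal_le_ofReal ?_
      have h6 : ε / (4 * ((nf : ℝ) + 1)) ≤ ε / 4 := by
        refine div_le_div_of_nonneg_left hε0.le (by norm_num) ?_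
        have : (0 : ℝ) ≤ nf := Nat.cast_nonneg _
        linarith
      linarith
    refine (prob_DB D lp hlp0 r N M l k H P hS hl0 h1 (m := k) le_rfl hFk h0).trans ?_
    rw [← ENNReal.ofReal_mul (by linarith), ← ENNReal.ofReal_natCast,
      ← ENNReal.ofReal_mul (Nat.cast_nonneg _)]
    refine ENNReal.ofReal_le_ofReal ?_
    rw [← hnw]
    push_cast
    have h2 : (N : ℝ) * N * (nw * nw) * ε ≤ 1 / 16 := by
      have h3 : (N : ℝ) * N * (nw * nw) * ε ≤ (N : ℝ) * N * (nw * nw) * εN :=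
        mul_le_mul_of_nonneg_left hε (by positivity)
      refine h3.trans ?_
      rw [hεN, mul_one_div, div_le_iff₀ (by positivity)]
      linarith
    have h4 := mul_le_mul_of_nonneg_left h2 (by linarith : (0 : ℝ) ≤ 4 * ε)
    linarith
  have hp4 : ENNReal.ofReal ε ≤ ENNReal.ofReal (ε / 4 + (ε / 4 + ε / 4)) := by
    refine hp1.trans ((measure_mono hsub).trans ((measure_union_le _ _).trans ?_))
    rw [ENNReal.ofReal_add (by linarith) (by linarith),
      ENNReal.ofReal_add (by linarith) (by linarith)]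
    exact add_le_add hp2 ((measure_union_le _ _).trans (add_le_add hp5 hp3))
  have := (ENNReal.ofReal_le_ofReal_iff (by linarith)).1 hp4
  linarith

end Pool.Agent.J6H19.NX
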